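import Pool.Agent.Helper46.T6.Stmts

set_option autoImplicit false

/-!
MP_2f9829_co, all degrees `d`. Module LIM: the limit of the gauge fixing function.
-/

open Finset MeasureTheory Filter Topology

namespace Pool.Agent.Helper78.T6

open Pool.Agent.Helper15.T4 (IsPM PM cov IsMat nsq po)
open Pool.Agent.Helper15.T6
open Pool.Agent.Helper46.T6

/-- A permutation that preserves the blocks. -/
theorem blk_perm {K : ℕ} (π : Equiv.Perm (Fin K × Fin 2)) (hπ : Blk π) :
    ∃ (e : Equiv.Perm (Fin K)) (fl : Fin K → Fin 2), ∀ p i, π (p, i) = (e p, i + fl p) := by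
  classical
  let e0 : Fin K → Fin K := fun p => (π (p, 0)).1
  let fl : Fin K → Fin 2 := fun p => (π (p, 0)).2
  have h1 : ∀ p i, π (p, i) = (e0 p, i + fl p) := by
    intro p i
    have hne : π (p, 0) ≠ π (p, 1) := by
      intro h
      have := π.injective h
      simp at this
    have hb := hπ p
    have hi : i = 0 ∨ i = 1 := by
      fin_cases i <;> simp
    rcases hi with rfl | rfl
    · simp [e0, fl]
    · have h2 : (π (p, 0)).2 ≠ (π (p, 1)).2 := fun h => hne (Prod.ext hb h)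
      have h3 : (π (p, 1)).2 = 1 + (π (p, 0)).2 := by
        revert h2
        generalize (π (p, 0)).2 = a
        generalize (π (p, 1)).2 = b
        revert a b
        decide
      exact Prod.ext hb.symm h3
  have hs : Function.Surjective e0 := by
    intro q
    obtain ⟨x, hx⟩ := π.surjective (q, 0)
    obtain ⟨p, i⟩ := x
    rw [h1] at hx
    exact ⟨p, congrArg Prod.fst hx⟩
  exact ⟨Equiv.ofBijective e0 (Finite.injective_iff_bijective.mp
    (Finite.injective_iff_surjective.mpr hs)), fl, h1⟩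

/-- The products over a matching equivalent to the standard one. -/
theorem pt_blk {d K : ℕ} (π : Equiv.Perm (Fin K × Fin 2)) (e : Equiv.Perm (Fin K))
    (fl : Fin K → Fin 2) (h : ∀ p i, π (p, i) = (e p, i + fl p)) (O : Fin K → Md d) :
    pt π O = pt (Equiv.refl _) (fun q => if fl (e.symm q) = 0 then O (e.symm q)
      else (O (e.symm q)).transpose) := by
  funext a
  unfold pt
  rw [← Equiv.prod_comp e.symm]
  refine Finset.prod_congr rfl fun q _ => ?_
  rw [h, h, Equiv.apply_symm_apply]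
  have hc : fl (e.symm q) = 0 ∨ fl (e.symm q) = 1 := by
    generalize fl (e.symm q) = b
    revert b
    decide
  rcases hc with hc | hc
  · simp [hc]
  · simp [hc]

theorem cont_G {d K : ℕ} (N : ℝ) (s : ℝ) (x : (Fin K × Fin 2 → Fin d) → ℝ) :
    Continuous (fun O : Fin K → Md d =>
      Real.exp (-N * nsq (fun a => x a - s * pt (Equiv.refl _) O a))) := by
  refine Real.continuous_exp.comp (continuous_const.mul ?_)
  unfold nsq
  refine continuous_finsetSum _ (fun a _ => Continuous.pow (continuous_const.sub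
    (continuous_const.mul ?_)) 2)
  unfold pt
  refine continuous_finsetProd _ (fun p _ => Continuous.div_const ?_ _)
  exact (continuous_apply p).matrix_elem _ _

theorem av_blk (avi : ST_AVI) {d K : ℕ} (π : Equiv.Perm (Fin K × Fin 2)) (hπ : Blk π) (N s : ℝ)
    (x : (Fin K × Fin 2 → Fin d) → ℝ) :
    AVd d K (fun O => Real.exp (-N * nsq (fun a => x a - s * pt π O a))) =
      AVd d K (fun O => Real.exp (-N * nsq (fun a => x a - s * pt (Equiv.refl _) O a))) := by
  obtain ⟨e, fl, h⟩ := blk_perm π hπ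
  rw [← (avi d K _ (cont_G N s x)).2.1 e.symm (fun q => fl (e.symm q))]
  congr 1
  funext O
  rw [pt_blk π e fl h O]

theorem AVd_nonneg {d K : ℕ} {G : (Fin K → Md d) → ℝ} (h : ∀ O, 0 ≤ G O) : 0 ≤ AVd d K G :=
  integral_nonneg fun _ => h _

theorem OD_coe {d : ℕ} (O : GO d) : OD (O : Md d) :=
  (Matrix.mem_orthogonalGroup_iff (Fin d) ℝ).mp O.2

theorem AVd_le {d K : ℕ} {G : (Fin K → Md d) → ℝ} {c : ℝ} (h0 : ∀ O, 0 ≤ G O)
    (h : ∀ O, (∀ p, OD (O p)) → G O ≤ c) : AVd d K G ≤ c := by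
  unfold AVd
  calc ∫ O : Fin K → GO d, G (fun p => ((O p : GO d) : Md d)) ∂(Measure.pi fun _ => hO d)
      ≤ ∫ _O : Fin K → GO d, c ∂(Measure.pi fun _ => hO d) := by
        refine integral_mono_of_nonneg (Filter.Eventually.of_forall fun v => h0 _)
          (integrable_const c) (Filter.Eventually.of_forall fun v => h _ fun p => OD_coe _)
    _ = c := by simp

theorem nsq_div {ι : Type} [Fintype ι] (t : ι → ℝ) (N : ℕ) (_hN : 0 < N) :
    nsq (fun a => t a / Real.sqrt (2 * N)) = nsq t / (2 * N) := by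
  unfold nsq
  rw [Finset.sum_div]
  refine Finset.sum_congr rfl fun i _ => ?_
  rw [div_pow, Real.sq_sqrt (by positivity)]

theorem tqd_div {d K : ℕ} (t : (Fin K × Fin 2 → Fin d) → ℝ) (N : ℕ) :
    tqd d K (fun a => t a / Real.sqrt (2 * N)) = tqd d K t / (2 * N) := by
  unfold tqd
  rw [Finset.sum_div]
  refine Finset.sum_congr rfl fun b _ => ?_
  have : ip (ebd b) (fun a => t a / Real.sqrt (2 * N)) = ip (ebd b) t / Real.sqrt (2 * N) := by
    unfold ip
    rw [Finset.sum_div]
    exact Finset.sum_congr rfl fun i _ => by ring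
  rw [this, div_pow, Real.sq_sqrt (by positivity)]

theorem nsq_nn {ι : Type} [Fintype ι] (x : ι → ℝ) : 0 ≤ nsq x :=
  Finset.sum_nonneg fun _ _ => sq_nonneg _

theorem tqd_nn {d K : ℕ} (x : (Fin K × Fin 2 → Fin d) → ℝ) : 0 ≤ tqd d K x :=
  Finset.sum_nonneg fun _ _ => sq_nonneg _

theorem nsq_zero' {ι : Type} [Fintype ι] : nsq (0 : ι → ℝ) = 0 := by
  simp [nsq]

theorem tqd_zero' {d K : ℕ} : tqd d K 0 = 0 := by
  simp [tqd, ip]

/-- LIM. -/
theorem st_LIM (lim0 : ST_LIM0) (move : ST_MOVE) (psinv : ST_PSINV) (comp : ST_COMP)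
    (blkn : ST_BLKN) (avi : ST_AVI) (tight : ST_TIGHT) : ST_LIM := by
  classical
  intro d hd K t
  have hd1 : 1 ≤ d := by omega
  obtain ⟨C0, r, hC0, hr, hmove⟩ := move d hd1 K
  set h : ℕ → (Fin K × Fin 2 → Fin d) → ℝ := fun N a => t a / Real.sqrt (2 * N) with hh
  have hnsq : ∀ N : ℕ, 0 < N → nsq (h N) = nsq t / (2 * N) := fun N hN => nsq_div t N hN
  have htq : ∀ N : ℕ, tqd d K (h N) = tqd d K t / (2 * N) := fun N => tqd_div t N
  have hex : ∀ N : ℕ, ∃ g e : (Fin K × Fin 2 → Fin d) → ℝ, tqd d K g = 0 ∧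
      ((nsq (h N) ≤ r ∧ nsq g = nsq (h N) - tqd d K (h N) ∧ nsq e ≤ C0 * nsq (h N) ^ 2 ∧
        Psid d K N (fun a => u0 d K a + h N a) = Psid d K N (fun a => u0 d K a + g a + e a)) ∨
      (¬ nsq (h N) ≤ r ∧ g = 0 ∧ e = 0)) := by
    intro N
    by_cases hN : nsq (h N) ≤ r
    · obtain ⟨A, g, e, hA, h1, h2, h3, h4⟩ := hmove (h N) hN
      refine ⟨g, e, h2, Or.inl ⟨hN, h3, h4, ?_⟩⟩
      rw [← (psinv d K N (fun a => u0 d K a + h N a)).1 A hA, h1]
    · exact ⟨0, 0, tqd_zero', Or.inr ⟨hN, rfl, rfl⟩⟩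
  choose g e hg0 hge using hex
  have hev : ∀ᶠ N : ℕ in atTop, 0 < N ∧ nsq (h N) ≤ r := by
    have h1 : Tendsto (fun N : ℕ => nsq t / (2 * (N : ℝ))) atTop (𝓝 0) :=
      Tendsto.div_atTop tendsto_const_nhds
        (tendsto_natCast_atTop_atTop.const_mul_atTop (by norm_num))
    filter_upwards [h1.eventually (gt_mem_nhds hr), eventually_gt_atTop 0] with N h2 hN
    refine ⟨hN, ?_⟩
    rw [hnsq N hN]
    exact h2.le
  set C : ℝ := nsq t + C0 * nsq t ^ 2 with hC
  have hC0' : 0 ≤ C := by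
    have := nsq_nn t
    positivity
  have hgb : ∀ N : ℕ, 1 ≤ N → nsq (g N) ≤ C / N := by
    intro N hN
    have hN' : (0 : ℝ) < N := by exact_mod_cast hN
    rcases hge N with ⟨_, h2, _, _⟩ | ⟨_, h2, _⟩
    · rw [h2, hnsq N hN, htq N]
      have h3 := tqd_nn (d := d) (K := K) t
      have h4 := nsq_nn t
      have h5 : 0 ≤ C0 * nsq t ^ 2 := by positivity
      rw [← sub_div, div_le_div_iff₀ (by positivity) hN']
      nlinarith
    · rw [h2, nsq_zero']
      positivity
  have heb : ∀ N : ℕ, 1 ≤ N → nsq (e N) ≤ C / (N : ℝ) ^ 2 := by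
    intro N hN
    have hN' : (0 : ℝ) < N := by exact_mod_cast hN
    rcases hge N with ⟨_, _, h2, _⟩ | ⟨_, _, h2⟩
    · refine h2.trans ?_
      rw [hnsq N hN]
      have h4 := nsq_nn t
      have h5 : 0 ≤ C0 * nsq t ^ 2 := by positivity
      have h6 : C0 * (nsq t / (2 * N)) ^ 2 = (C0 * nsq t ^ 2 / 4) / (N : ℝ) ^ 2 := by
        field_simp
        norm_num
      rw [h6]
      refine div_le_div_of_nonneg_right ?_ (by positivity)
      linarith
    · rw [h2, nsq_zero']
      positivity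
  set G : ℝ := (nsq t - tqd d K t) / 2 with hG
  have hlimG : Tendsto (fun N : ℕ => (N : ℝ) * nsq (g N)) atTop (𝓝 G) := by
    refine tendsto_const_nhds.congr' ?_
    filter_upwards [hev] with N hN
    have hN' : (0 : ℝ) < N := by exact_mod_cast hN.1
    rcases hge N with ⟨_, h2, _, _⟩ | ⟨h2, _, _⟩
    · rw [h2, hnsq N hN.1, htq N, hG]
      field_simp
    · exact absurd hN.2 h2
  have hA := lim0 d hd K g e C G hg0 hgb heb hlimG
  set Term : ℕ → ℤˣ → Equiv.Perm (Fin K × Fin 2) → ℝ := fun N s π =>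
    AVd d K (fun O => Real.exp (-(N : ℝ) *
      nsq (fun a => u0 d K a + g N a + e N a - ((s : ℤ) : ℝ) * pt π O a))) with hTerm
  obtain ⟨δ, hδ, hcomp⟩ := (comp d hd K).1
  obtain ⟨hpsi, -, -, ⟨c, E, hc, hcE⟩, -⟩ := tight d hd1
  have hsmall : ∀ (s : ℤˣ) (π : Equiv.Perm (Fin K × Fin 2)), ¬ Blk π →
      Tendsto (fun N : ℕ => Term N s π / psiN d N ^ K) atTop (𝓝 0) := by
    intro s π hπ
    have hbd : ∀ᶠ N : ℕ in atTop, Term N s π / psiN d N ^ K ≤
        (Real.exp (4 * C) / c ^ K) * ((N : ℝ) ^ ((E * K : ℕ) : ℝ) *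
          Real.exp (-(δ / 2) * (N : ℝ))) := by
      filter_upwards [eventually_gt_atTop 0] with N hN
      have hN' : (0 : ℝ) < N := by exact_mod_cast hN
      have h1 : Term N s π ≤ Real.exp (4 * C + -(δ / 2) * (N : ℝ)) := by
        refine AVd_le (fun O => (Real.exp_pos _).le) fun O hO => ?_
        refine Real.exp_le_exp.mpr ?_
        have h2 := hcomp s π O hO hπ
        have h3 : nsq (fun a => u0 d K a - ((s : ℤ) : ℝ) * pt π O a) ≤
            2 * nsq (fun a => u0 d K a + g N a + e N a - ((s : ℤ) : ℝ) * pt π O a) +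
            2 * (2 * nsq (g N) + 2 * nsq (e N)) := by
          unfold nsq
          simp only [Finset.mul_sum, ← Finset.sum_add_distrib]
          refine Finset.sum_le_sum fun a _ => ?_
          nlinarith [sq_nonneg (u0 d K a - ((s : ℤ) : ℝ) * pt π O a + 2 * (g N a + e N a)),
            sq_nonneg (g N a - e N a)]
        have h4 := hgb N hN
        have h5 := heb N hN
        have h6 : (N : ℝ) * nsq (g N) ≤ C := by
          calc (N : ℝ) * nsq (g N) ≤ N * (C / N) := mul_le_mul_of_nonneg_left h4 hN'.le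
            _ = C := by field_simp
        have h7 : (N : ℝ) * nsq (e N) ≤ C := by
          calc (N : ℝ) * nsq (e N) ≤ N * (C / (N : ℝ) ^ 2) := mul_le_mul_of_nonneg_left h5 hN'.le
            _ = C / N := by field_simp
            _ ≤ C := div_le_self hC0' (by exact_mod_cast hN)
        nlinarith
      have h8 : (c / (N : ℝ) ^ E) ^ K ≤ psiN d N ^ K :=
        pow_le_pow_left₀ (by positivity) (hcE N hN) K
      have h9 : Term N s π / psiN d N ^ K ≤
          Real.exp (4 * C + -(δ / 2) * (N : ℝ)) / (c / (N : ℝ) ^ E) ^ K :=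
        div_le_div₀ (Real.exp_pos _).le h1 (by positivity) h8
      refine h9.trans (le_of_eq ?_)
      rw [Real.exp_add, Real.rpow_natCast, div_pow, ← pow_mul]
      field_simp
    have hz : Tendsto (fun N : ℕ => (Real.exp (4 * C) / c ^ K) *
        ((N : ℝ) ^ ((E * K : ℕ) : ℝ) * Real.exp (-(δ / 2) * (N : ℝ)))) atTop (𝓝 0) := by
      have h6 := tendsto_rpow_mul_exp_neg_mul_atTop_nhds_zero ((E * K : ℕ) : ℝ) (δ / 2)
        (by positivity)
      have h8 := (h6.comp tendsto_natCast_atTop_atTop).const_mul (Real.exp (4 * C) / c ^ K)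
      rw [mul_zero] at h8
      exact h8
    refine squeeze_zero' (Filter.Eventually.of_forall fun N => ?_) hbd hz
    exact div_nonneg (AVd_nonneg fun O => (Real.exp_pos _).le) (pow_nonneg (hpsi N).1.le K)
  have hB : Tendsto (fun N : ℕ => ∑ s : ℤˣ, ∑ π ∈ univ.filter
      (fun π : Equiv.Perm (Fin K × Fin 2) => ¬ Blk π), Term N s π / psiN d N ^ K) atTop (𝓝 0) := by
    have h1 : Tendsto (fun N : ℕ => ∑ s : ℤˣ, ∑ π ∈ univ.filter
        (fun π : Equiv.Perm (Fin K × Fin 2) => ¬ Blk π), Term N s π / psiN d N ^ K) atTop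
        (𝓝 (∑ _s : ℤˣ, ∑ _π ∈ univ.filter
          (fun π : Equiv.Perm (Fin K × Fin 2) => ¬ Blk π), (0 : ℝ))) :=
      tendsto_finsetSum _ fun s _ => tendsto_finsetSum _ fun π hπ =>
        hsmall s π (Finset.mem_filter.mp hπ).2
    simp only [Finset.sum_const_zero] at h1
    exact h1
  have hfin := ((hA.const_mul ((2 ^ K * K.factorial : ℕ) : ℝ)).add hB).const_mul
    (Real.exp (nsq t / 2))
  have hval : Real.exp (nsq t / 2) * (((2 ^ K * K.factorial : ℕ) : ℝ) *
      (2 ^ K * Real.exp (-G)) + 0) = 4 ^ K * (K.factorial : ℝ) * Real.exp (tqd d K t / 2) := by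
    have h1 : Real.exp (tqd d K t / 2) = Real.exp (nsq t / 2) * Real.exp (-G) := by
      rw [← Real.exp_add, hG]
      congr 1
      ring
    have h2 : (4 : ℝ) ^ K = 2 ^ K * 2 ^ K := by
      rw [← mul_pow]
      norm_num
    rw [h1, h2]
    push_cast
    ring
  rw [hval] at hfin
  refine hfin.congr' ?_
  filter_upwards [hev] with N hN
  rcases hge N with ⟨_, _, _, h2⟩ | ⟨h2, _, _⟩
  swap
  · exact absurd hN.2 h2
  have h3 : Psid d K N (fun a => u0 d K a + g N a + e N a) =
      ((2 ^ K * K.factorial : ℕ) : ℝ) * (∑ s : ℤˣ, AVd d K (fun O => Real.exp (-(N : ℝ) *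
        nsq (fun a => u0 d K a + g N a + e N a - ((s : ℤ) : ℝ) * pt (Equiv.refl _) O a)))) +
      ∑ s : ℤˣ, ∑ π ∈ univ.filter (fun π : Equiv.Perm (Fin K × Fin 2) => ¬ Blk π),
        Term N s π := by
    unfold Psid
    rw [Finset.mul_sum, ← Finset.sum_add_distrib]
    refine Finset.sum_congr rfl fun s _ => ?_
    rw [← Finset.sum_filter_add_sum_filter_not univ (fun π : Equiv.Perm (Fin K × Fin 2) => Blk π)]
    congr 1
    have h4 : ∀ π ∈ univ.filter (fun π : Equiv.Perm (Fin K × Fin 2) => Blk π),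
        AVd d K (fun O => Real.exp (-(N : ℝ) * nsq (fun a => u0 d K a + g N a + e N a -
          ((s : ℤ) : ℝ) * pt π O a))) = AVd d K (fun O => Real.exp (-(N : ℝ) *
          nsq (fun a => u0 d K a + g N a + e N a - ((s : ℤ) : ℝ) * pt (Equiv.refl _) O a))) :=
      fun π hπ => av_blk avi π (Finset.mem_filter.mp hπ).2 N _ _
    rw [Finset.sum_congr rfl h4, Finset.sum_const, nsmul_eq_mul]
    congr 2
    have h5 := blkn K
    rw [← h5]
  have h6 : (fun a => u0 d K a + t a / Real.sqrt (2 * N)) = (fun a => u0 d K a + h N a) := rfl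
  rw [h6, h2, h3]
  simp only [← Finset.sum_div]
  ring

end Pool.Agent.Helper78.T6
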