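import Pool.Agent.Helper15.T6.Stmts

set_option autoImplicit false

/-!
MP_2f9829_co, all degrees `d`. Module PQ: the vertex polynomial and the vertex matrix at the maximum.
-/

open Finset MeasureTheory Filter Topology

namespace Pool.Agent.Helper78.T6

open Pool.Agent.Helper15.T4 (IsPM PM cov IsMat nsq po)
open Pool.Agent.Helper15.T6

theorem qd_pos (d : ℕ) (hd : 1 ≤ d) : 0 < qd d := by
  unfold qd
  have h1 : (0 : ℝ) < (d.factorial : ℝ) := by exact_mod_cast d.factorial_pos
  have h2 : (0 : ℝ) < (d : ℝ) := by exact_mod_cast hd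
  have h3 : 0 < Real.sqrt (d : ℝ) := Real.sqrt_pos.mpr h2
  positivity

theorem PJ_smul {d : ℕ} (J : Type) [Fintype J] [DecidableEq J] (s : ℝ) (x : (J → Fin d) → ℝ) :
    PJ J (s • x) = s ^ d * PJ J x := by
  simp only [PJ, TJ, Finset.mul_sum, Pi.smul_apply, smul_eq_mul, Finset.prod_mul_distrib,
    Finset.prod_const, Finset.card_univ, Fintype.card_fin]
  refine Finset.sum_congr rfl (fun a _ => ?_)
  ring

theorem PJ_cont {d : ℕ} (J : Type) [Fintype J] [DecidableEq J] :
    Continuous (fun x : (J → Fin d) → ℝ => PJ J x) := by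
  unfold PJ TJ
  refine continuous_finsetSum _ (fun a _ => ?_)
  exact continuous_const.mul (continuous_finsetProd _ (fun i _ => continuous_apply _))

theorem RW_smul {d : ℕ} {L : Type} [Fintype L] (w : (Fin d → L) → ℝ) (p q : Fin d) (hpq : p ≠ q)
    (s : ℝ) (x : L → ℝ) : RW w p q (s • x) = s ^ (d - 2) • RW w p q x := by
  ext a b
  have hc : ((univ.erase p).erase q).card = d - 2 := by
    rw [Finset.card_erase_of_mem, Finset.card_erase_of_mem (Finset.mem_univ p)]
    · simp only [Finset.card_univ, Fintype.card_fin]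
      omega
    · exact Finset.mem_erase.mpr ⟨fun h => hpq h.symm, Finset.mem_univ q⟩
  simp only [RW, Matrix.smul_apply, smul_eq_mul, Finset.mul_sum, Pi.smul_apply,
    Finset.prod_mul_distrib, Finset.prod_const, hc]
  refine Finset.sum_congr rfl (fun f _ => ?_)
  ring

theorem st_PQ (hA : ST_PMAXR) (hU : ST_UNIQR) (hP : ST_PTV) (hT : ST_TRP) : ST_PQ := by
  intro d hd K
  have hcard : Fintype.card (Fin K × Fin 2) = 2 * K := by
    simp [mul_comm]
  have hq : 0 < qd d ^ K := pow_pos (qd_pos d (by omega)) K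
  refine ⟨⟨PJ_cont _, fun s x => PJ_smul _ s x, hq, fun x => hA d hd _ K hcard x, ?_⟩, ?_⟩
  · have hO : ∀ p : Fin K, (fun _ => 1 : Fin K → Md d) p * ((fun _ => 1 : Fin K → Md d) p).transpose
        = 1 := fun p => by simp
    obtain ⟨h1, h2, -⟩ := hP d (by omega) K (Fin K × Fin 2) (Equiv.refl _) (fun _ => 1)
      (fun _ => 1) hO
    refine ⟨pt (Equiv.refl _) (fun _ => 1), h2, ?_⟩
    show |PJ (Fin K × Fin 2) _| = qd d ^ K
    rw [h1]
    simp only [Matrix.det_one, Finset.prod_const_one, mul_one]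
    exact abs_of_pos hq
  · intro x hx1 hx2 p q hpq k
    obtain ⟨s, φ, O, hO, hx⟩ := hU d hd (Fin K × Fin 2) K hcard x hx1 hx2
    have hx' : x = ((s : ℤ) : ℝ) • pt φ O := by
      funext a
      rw [hx a]
      rfl
    have hs : (((s : ℤ) : ℝ)) ^ d = ((s : ℤ) : ℝ) ^ (d - 2) := by
      have h2 : ((s : ℤ) : ℝ) ^ 2 = 1 := by
        rcases Int.units_eq_one_or s with h | h <;> rw [h] <;> norm_num
      calc (((s : ℤ) : ℝ)) ^ d = ((s : ℤ) : ℝ) ^ (d - 2) * ((s : ℤ) : ℝ) ^ 2 := by
            rw [← pow_add]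
            congr 1
            omega
        _ = _ := by rw [h2, mul_one]
    obtain ⟨h1, -, -⟩ := hP d (by omega) K (Fin K × Fin 2) φ O O hO
    have h4 := hT d (by omega) K (Fin K × Fin 2) φ O hO p q hpq k
    rw [hx', RW_smul _ p q hpq, PJ_smul, smul_pow, Matrix.trace_smul, h4, h1, hs, smul_eq_mul]
    ring

end Pool.Agent.Helper78.T6
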